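import Pool.Agent.W536.LM.Stm

set_option autoImplicit false

open Polynomial W536.LM

namespace Pool.Agent.W318.LM

theorem eval_Ep (L m m' e w r : ℂ) : (Ep L m m' e w).eval r = E0 L m m' e w r := by
  simp only [Ep, E0, eval_add, eval_mul, eval_C, eval_pow, eval_X]
  ring

theorem coeff2_Ep (L m m' e w : ℂ) : (Ep L m m' e w).coeff 2 = m - L * w := by
  rw [Ep, coeff_add, coeff_add, coeff_C_mul_X_pow, coeff_C_mul, coeff_X, coeff_C]
  norm_num

theorem coeff0_Ep (L m m' e w : ℂ) : (Ep L m m' e w).coeff 0 = (w - 1) * m' * w := by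
  rw [Ep, coeff_add, coeff_add, coeff_C_mul_X_pow, coeff_C_mul, coeff_X, coeff_C]
  norm_num

theorem deg_Ep (L m m' e w : ℂ) : (Ep L m m' e w).natDegree ≤ 2 := natDegree_quadratic_le

theorem map_map_eval (P : Par ℂ) (r : ℂ) : (P.map (C : ℂ →+* ℂ[X])).map (evalRingHom r) = P := by
  cases P with
  | mk L m e => simp [Par.map]

theorem eval_G (hN : S_NAT) (n : ℕ) (P : Par ℂ) (r w0 : ℂ) :
    (G n (P.map C) X (C w0)).eval r = G n P r w0 := by
  have h := hN n ℂ[X] ℂ (evalRingHom r) (P.map C) X (C w0)
  rw [map_map_eval] at h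
  simpa using h

theorem t_Z (hN : S_NAT) (hD : S_DEG) (hT : S_TOP) (hR : S_RES0) : S_Z := by
  intro P hND n w w0
  obtain ⟨hL, hm, hmL⟩ := hND
  have key : ∀ n : ℕ, (∀ w, G n P w w0 = 0 → Path P w0 n (some w)) ∧
      (Ginf n P w0 = 0 → Path P w0 n none) := by
    intro n
    induction n with
    | zero =>
      constructor
      · intro w h
        exact h
      · intro h
        exact h
    | succ n ih =>
      obtain ⟨ih1, ih2⟩ := ih
      have hdeg : (G n (P.map C) X (C w0)).natDegree ≤ 2 ^ (n + 1) := hD n ℂ P w0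
      constructor
      · intro w h
        have hf : Ep P.L (P.m (4 - n)) (P.m (5 - n)) (P.e (4 - n)) w ≠ 0 := by
          intro h0
          have h2 := coeff2_Ep P.L (P.m (4 - n)) (P.m (5 - n)) (P.e (4 - n)) w
          have h1 := coeff0_Ep P.L (P.m (4 - n)) (P.m (5 - n)) (P.e (4 - n)) w
          rw [h0, coeff_zero] at h1 h2
          have h3 := h1.symm
          rcases mul_eq_zero.1 h3 with h4 | h4
          · rcases mul_eq_zero.1 h4 with h5 | h5
            · have h6 : w = 1 := sub_eq_zero.1 h5
              rw [h6, mul_one] at h2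
              exact hmL _ (sub_eq_zero.1 h2.symm)
            · exact hm _ h5
          · rw [h4, mul_zero, sub_zero] at h2
            exact hm _ h2.symm
        rcases hR _ _ (2 ^ (n + 1)) hf (deg_Ep _ _ _ _ _) hdeg h with ⟨r, hr1, hr2⟩ | ⟨h1, h2⟩
        · rw [eval_Ep] at hr1
          rw [eval_G hN] at hr2
          exact ⟨some r, hr1, ih1 r hr2⟩
        · rw [coeff2_Ep] at h1
          rw [hT n P w0] at h2
          exact ⟨none, h1, ih2 h2⟩
      · intro h
        have hf : (C (P.m (5 - n)) - C P.L * X : ℂ[X]) ≠ 0 := by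
          intro h0
          have h1 : (C (P.m (5 - n)) - C P.L * X : ℂ[X]).coeff 1 = - P.L := by
            rw [coeff_sub, coeff_C_mul, coeff_X, coeff_C]
            norm_num
          rw [h0, coeff_zero] at h1
          exact hL (neg_eq_zero.1 h1.symm)
        have hfd : (C (P.m (5 - n)) - C P.L * X : ℂ[X]).natDegree ≤ 2 := by
          refine (natDegree_sub_le _ _).trans ?_
          rw [natDegree_C]
          have := natDegree_C_mul_le (P.L) (X : ℂ[X])
          rw [natDegree_X] at this
          omega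
        rcases hR _ _ (2 ^ (n + 1)) hf hfd hdeg h with ⟨r, hr1, hr2⟩ | ⟨h1, h2⟩
        · rw [eval_G hN] at hr2
          have hr3 : P.m (5 - n) - P.L * r = 0 := by simpa using hr1
          exact ⟨some r, hr3, ih1 r hr2⟩
        · rw [hT n P w0] at h2
          exact ⟨none, trivial, ih2 h2⟩
  exact (key n).1 w

end Pool.Agent.W318.LM
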